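import Mathlib
import Pool.Agent.H479R3.SGrp

/-!
# Function spaces that are s-groups but not Frechet-Urysohn

For the discrete space `X` of cardinality `ℵ₁` both `C_p(X)` and `C_c(X)` (which are the product
group `ℝ^X`) are s-groups, but they are not Frechet-Urysohn (not even of countable tightness).

The proof that every sequentially continuous homomorphism `f : ℝ^X → H` is continuous: on vectors
with countable support this follows from a diagonal argument; the general case is reduced to it
with an Ulam matrix on `X`, which is applied to the `H`-valued measure `S ↦ f (v 1_S)`.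
-/

set_option autoImplicit false

namespace Pool.Agent.Results.MP_174f4a_gt.SGroupNotFrechetUrysohn

open Set Filter Topology

/-- `C_p(X)`: the additive group of continuous real functions on `X`; as a subtype of `X → ℝ`
it carries the topology of pointwise convergence. -/
abbrev Cp (X : Type) [TopologicalSpace X] : AddSubgroup (X → ℝ) := continuousAddSubgroup X ℝ

/-- An additive group `G` with a topology is an s-group: it is a Hausdorff topological group and
every sequentially continuous homomorphism from `G` to a Hausdorff topological group `H` (written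
multiplicatively) is continuous.  (Replacing `H` by the range of `f` one sees that it is no loss of
generality to take `H : Type`.) -/
def IsSGroup (G : Type) [AddGroup G] [TopologicalSpace G] : Prop :=
  IsTopologicalAddGroup G ∧ T2Space G ∧
    ∀ (H : Type) [Group H] [TopologicalSpace H] [IsTopologicalGroup H] [T2Space H] (f : G → H),
      (∀ x y, f (x + y) = f x * f y) → SeqContinuous f → Continuous f

lemma sgroup_aux {X : Type} (hX : Cardinal.mk X = Cardinal.aleph 1) (G : Type) [AddGroup G]
    [TopologicalSpace G] (φ : G ≃ₜ (X → ℝ)) (hφ : ∀ x y, φ (x + y) = φ x + φ y) :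
    IsSGroup G := by
  have hφ0 : φ 0 = 0 := by
    have := hφ 0 0
    rw [add_zero] at this
    exact add_eq_left.1 this.symm
  have hφneg : ∀ x, φ (-x) = - φ x := by
    intro x
    have := hφ (-x) x
    rw [neg_add_cancel, hφ0] at this
    exact (neg_eq_of_add_eq_zero_left this.symm).symm
  refine ⟨?_, φ.symm.t2Space, ?_⟩
  · refine { continuous_add := ?_, continuous_neg := ?_ }
    · have : (fun p : G × G => p.1 + p.2) = fun p => φ.symm (φ p.1 + φ p.2) := by
        funext p
        rw [← hφ, φ.symm_apply_apply]
      rw [this]
      fun_prop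
    · have : (fun p : G => -p) = fun p => φ.symm (- φ p) := by
        funext p
        rw [← hφneg, φ.symm_apply_apply]
      rw [this]
      fun_prop
  · intro H _ _ _ _ f hf hs
    have hinv : ∀ v w, φ.symm (v + w) = φ.symm v + φ.symm w := by
      intro v w
      apply φ.injective
      rw [hφ]
      simp
    have hf0 : f 0 = 1 := by
      have := hf 0 0
      rw [add_zero] at this
      exact mul_eq_left.1 this.symm
    have hsym0 : φ.symm 0 = 0 := by rw [← hφ0, φ.symm_apply_apply]
    -- continuity at 0
    have hc0 : ∀ W ∈ 𝓝 (1 : H), ∀ᶠ g in 𝓝 (0 : G), f g ∈ W := by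
      intro W hW
      obtain ⟨F, ε, hε, hFW⟩ := Pool.Agent.H479R3.SGrp.main hX (fun v => f (φ.symm v))
        (fun v w => by rw [hinv, hf])
        (fun v hv => by
          have h1 : Tendsto v atTop (𝓝 0) := tendsto_pi_nhds.2 hv
          have h2 : Tendsto (fun n => φ.symm (v n)) atTop (𝓝 0) := by
            have := (φ.symm.continuous.tendsto 0).comp h1
            rwa [hsym0] at this
          have h3 := hs h2
          rw [hf0] at h3
          exact h3) W hW
      have h1 : ∀ᶠ v in 𝓝 (0 : X → ℝ), ∀ x ∈ F, |v x| < ε := by
        rw [Filter.eventually_all_finset]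
        intro x _
        have h2 : Tendsto (fun v : X → ℝ => |v x|) (𝓝 0) (𝓝 |(0 : X → ℝ) x|) :=
          (((continuous_apply x).abs).tendsto 0)
        have h3 : |(0 : X → ℝ) x| < ε := by simpa using hε
        exact h2.eventually (gt_mem_nhds h3)
      have h2 : Tendsto φ (𝓝 0) (𝓝 0) := by
        have := φ.continuous.tendsto 0
        rwa [hφ0] at this
      filter_upwards [h2.eventually h1] with g hg
      have := hFW (φ g) hg
      simpa using this
    rw [continuous_iff_continuousAt]
    intro x
    have h1 : ∀ y, f y = f x * f (-x + y) := by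
      intro y
      rw [← hf, add_neg_cancel_left]
    have h2 : Tendsto (fun y => f (-x + y)) (𝓝 x) (𝓝 1) := by
      have h3 : Tendsto (fun y : G => -x + y) (𝓝 x) (𝓝 0) := by
        have h4 : (fun y : G => -x + y) = fun y => φ.symm (φ (-x) + φ y) := by
          funext y
          rw [← hφ, φ.symm_apply_apply]
        have h5 : Continuous (fun y : G => -x + y) := by
          rw [h4]; fun_prop
        have h6 := h5.tendsto x
        rwa [neg_add_cancel] at h6
      have h7 : Tendsto f (𝓝 0) (𝓝 1) := fun W hW => hc0 W hW
      exact h7.comp h3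
    have h3 := (tendsto_const_nhds (x := f x)).mul h2
    rw [mul_one] at h3
    exact h3.congr (fun y => (h1 y).symm)

lemma not_fu {X : Type} (hX : Cardinal.mk X = Cardinal.aleph 1) : ¬ FrechetUrysohnSpace (X → ℝ) := by
  classical
  intro h
  let S : Set (X → ℝ) := range (fun F : Finset X => (F : Set X).indicator (fun _ => (1 : ℝ)))
  have h1 : (fun _ => (1 : ℝ)) ∈ closure S := by
    rw [mem_closure_iff]
    intro o ho h1o
    obtain ⟨I, u, hu, hsub⟩ := isOpen_pi_iff.1 ho _ h1o
    refine ⟨(I : Set X).indicator (fun _ => (1 : ℝ)), hsub ?_, ⟨I, rfl⟩⟩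
    intro i hi
    rw [Set.indicator_of_mem hi]
    exact (hu i hi).2
  rw [mem_closure_iff_seq_limit] at h1
  obtain ⟨v, hv, hlim⟩ := h1
  choose F hF using hv
  have h2 : (⋃ n, (F n : Set X)).Countable :=
    Set.countable_iUnion (fun n => (F n).countable_toSet)
  have h3 : ∃ x, x ∉ ⋃ n, (F n : Set X) := by
    by_contra hcon
    push Not at hcon
    have h4 : (⋃ n, (F n : Set X)) = univ := eq_univ_of_forall hcon
    rw [h4, ← Cardinal.le_aleph0_iff_set_countable, Cardinal.mk_univ, hX] at h2
    exact absurd h2 (not_le.2 Cardinal.aleph0_lt_aleph_one)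
  obtain ⟨x, hx⟩ := h3
  have h5 := (tendsto_pi_nhds.1 hlim) x
  have h6 : ∀ n, v n x = 0 := by
    intro n
    rw [← hF n]
    apply Set.indicator_of_notMem
    intro h
    exact hx (mem_iUnion.2 ⟨n, h⟩)
  simp only [h6] at h5
  have := tendsto_nhds_unique h5 tendsto_const_nhds
  exact one_ne_zero this

/-- There is a (discrete) space `X` such that both `C_p(X)` and `C_c(X)` are s-groups but not
Frechet-Urysohn. -/
theorem result : ∃ (X : Type) (_ : TopologicalSpace X), DiscreteTopology X ∧
    (IsSGroup (Cp X) ∧ ¬ FrechetUrysohnSpace (Cp X)) ∧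
    (IsSGroup C(X, ℝ) ∧ ¬ FrechetUrysohnSpace C(X, ℝ)) := by
  have hX : Cardinal.mk (Cardinal.aleph 1).out = Cardinal.aleph 1 := Cardinal.mk_out _
  let _ : TopologicalSpace (Cardinal.aleph 1).out := ⊥
  have : DiscreteTopology (Cardinal.aleph 1).out := ⟨rfl⟩
  refine ⟨(Cardinal.aleph 1).out, inferInstance, inferInstance, ?_, ?_⟩
  · let φ : (Cp (Cardinal.aleph 1).out) ≃ₜ ((Cardinal.aleph 1).out → ℝ) :=
      { toFun := Subtype.val
        invFun := fun f => ⟨f, continuous_of_discreteTopology⟩
        left_inv := fun f => rfl
        right_inv := fun f => rfl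
        continuous_toFun := continuous_subtype_val
        continuous_invFun := continuous_id.subtype_mk _ }
    refine ⟨sgroup_aux hX _ φ (fun x y => rfl), fun h => not_fu hX ?_⟩
    exact φ.symm.isInducing.frechetUrysohnSpace
  · let φ : C((Cardinal.aleph 1).out, ℝ) ≃ₜ ((Cardinal.aleph 1).out → ℝ) :=
      ContinuousMap.homeoFnOfDiscrete
    refine ⟨sgroup_aux hX _ φ (fun x y => rfl), fun h => not_fu hX ?_⟩
    exact φ.symm.isInducing.frechetUrysohnSpace

end Pool.Agent.Results.MP_174f4a_gt.SGroupNotFrechetUrysohn
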